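import Pool.Agent.Helper25_HAM.Nor

/-!
# Module GLE of the squad HAM
-/

namespace Pool.Agent.HAM.H25

open Pool.Agent.HAM

theorem normal_ec {w : List Op} {n n' J : ℕ} (h : Normal w n n' J) : ec w = J := by
  have h1 := (h.2.2.2.2 ℕ id (List.replicate n 0) [] 0 (by simp)).2
  rw [run_m] at h1
  simpa using h1

theorem normal_even {w : List Op} {n n' J : ℕ} (h : Normal w n n' J) : Even (ec w) := by
  rw [normal_ec h]
  exact h.2.2.2.1

theorem normal_legal {w : List Op} {n n' J : ℕ} (h : Normal w n n' J) : legal w n n' := h.2.1

theorem gle : GleStmt := by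
  intro A _ T hT v M hv
  have hlen : 0 < v.length := List.length_pos_of_ne_nil hv
  -- the first row
  have hrow : ∀ (v : List A) (c : ℕ),
      legal (v.flatMap fun a => T.row a ++ [.rot T.k]) (T.k + c * T.k)
        (T.k + (c + v.length) * T.k) ∧ Even (ec (v.flatMap fun a => T.row a ++ [.rot T.k])) := by
    intro v
    induction v with
    | nil => intro c; exact ⟨rfl, Even.zero⟩
    | cons a v ih =>
      intro c
      have h1 := normal_legal (hT.row a)
      have h2 : legal (T.row a) (T.k + c * T.k) (T.k + (c + 1) * T.k) := by
        have := legal_ctx (c * T.k) h1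
        rwa [show 2 * T.k + c * T.k = T.k + (c + 1) * T.k by ring] at this
      have h3 := ih (c + 1)
      refine ⟨?_, ?_⟩
      · rw [List.flatMap_cons]
        refine legal_append (legal_append h2 (show legal [.rot T.k] _ _ from rfl)) ?_
        have := h3.1
        rwa [show c + 1 + v.length = c + (a :: v).length by simp; omega] at this
      · rw [List.flatMap_cons, ec_append, ec_append]
        have : ec [Op.rot T.k] = 0 := rfl
        rw [this, add_zero]
        exact (normal_even (hT.row a)).add h3.2
  have hreg : ∀ M : ℕ, legal (List.replicate M (T.reg ++ [.rot T.k])).flatten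
      (T.k + v.length * T.k) (T.k + v.length * T.k) ∧
      Even (ec (List.replicate M (T.reg ++ [.rot T.k])).flatten) := by
    intro M
    induction M with
    | zero => exact ⟨rfl, Even.zero⟩
    | succ M ih =>
      have h1 := normal_legal hT.reg
      have h2 := legal_ctx ((v.length - 1) * T.k) h1
      have h3 : 2 * T.k + (v.length - 1) * T.k = T.k + v.length * T.k := by
        obtain ⟨r, hr⟩ : ∃ r, v.length = r + 1 := ⟨v.length - 1, by omega⟩
        rw [hr]
        simp
        ring
      rw [h3] at h2
      rw [List.replicate_succ, List.flatten_cons]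
      refine ⟨legal_append (legal_append h2 (show legal [.rot T.k] _ _ from rfl)) ih.1, ?_⟩
      rw [ec_append, ec_append]
      have : ec [Op.rot T.k] = 0 := rfl
      rw [this, add_zero]
      exact (normal_even hT.reg).add ih.2
  have hdrop : ∀ c : ℕ, legal (List.replicate c T.drop).flatten (3 + c * T.k) 3 ∧
      Even (ec (List.replicate c T.drop).flatten) := by
    intro c
    induction c with
    | zero => exact ⟨by simp [legal], Even.zero⟩
    | succ c ih =>
      have h1 := legal_ctx (c * T.k) (normal_legal hT.drop)
      rw [show 3 + T.k + c * T.k = 3 + (c + 1) * T.k by ring] at h1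
      rw [List.replicate_succ, List.flatten_cons]
      refine ⟨legal_append h1 ih.1, ?_⟩
      rw [ec_append]
      exact (normal_even hT.drop).add ih.2
  have hend : legal [.vtx 0 1 1, .vtx 1 2 1] 3 2 :=
    ⟨by omega, by omega, by omega, by omega, by omega, by omega, by omega, by omega, rfl⟩
  have hw : legal (T.word v M) 3 2 := by
    refine legal_append (normal_legal hT.start) ?_
    refine legal_append (k := T.k + v.length * T.k) ?_ ?_
    · have := (hrow v 0).1
      simpa using this
    refine legal_append (hreg M).1 ?_
    refine legal_append (legal_ctx (v.length * T.k) (normal_legal hT.fin)) ?_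
    exact legal_append (hdrop v.length).1 hend
  refine ⟨hw, ?_⟩
  have hm : (HAM.fin (T.word v M) 2).m = 4 + ec (T.word v M) := by
    show (run id ⟨[], 0, []⟩ (closed (T.word v M) 2)).m = _
    rw [run_m, closed, ec, ec, ec_append]
    have : ec [Op.vtx 0 2 0] = 0 := rfl
    rw [this]
    show 0 + (2 + (2 + (ec (T.word v M) + 0))) = _
    omega
  rw [hm]
  refine Even.add (by decide) ?_
  rw [Tiles.word, ec_append, ec_append, ec_append, ec_append, ec_append]
  refine (normal_even hT.start).add ((hrow v 0).2.add ((hreg M).2.add
    ((normal_even hT.fin).add ((hdrop v.length).2.add ?_))))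
  exact ⟨1, rfl⟩

end Pool.Agent.HAM.H25
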