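import Pool.Agent.Helper43_HAM.Stmts

/-!
# Modules NOR and GLE of the squad HAM
-/

namespace Pool.Agent.HAM.H25

open Pool.Agent.HAM

/-- number of edges created -/
def ec : List Op → ℕ
  | [] => 0
  | .rot _ :: w => ec w
  | .vtx _ _ b :: w => b + ec w

theorem ec_append (w w' : List Op) : ec (w ++ w') = ec w + ec w' := by
  induction w with
  | nil => simp [ec]
  | cons o w ih =>
    cases o with
    | rot k => simp [ec, ih]
    | vtx i a b => simp [ec, ih, add_assoc]

theorem run_append {I : Type} (new : ℕ → I) (s : St I) (w w' : List Op) :
    run new s (w ++ w') = run new (run new s w) w' := by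
  simp [run, List.foldl_append]

theorem run_cons {I : Type} (new : ℕ → I) (s : St I) (o : Op) (w : List Op) :
    run new s (o :: w) = run new (step new s o) w := rfl

theorem run_m {I : Type} (new : ℕ → I) (w : List Op) :
    ∀ s : St I, (run new s w).m = s.m + ec w := by
  induction w with
  | nil => intro s; rfl
  | cons o w ih =>
    intro s
    rw [run_cons, ih]
    cases o with
    | rot k => rfl
    | vtx i a b => simp [ec, step, add_assoc]

theorem run_len {I : Type} (new : ℕ → I) (w : List Op) :
    ∀ (s : St I) (n n' : ℕ), legal w n n' → s.fr.length = n → (run new s w).fr.length = n' := by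
  induction w with
  | nil => intro s n n' h hs; exact hs.trans h
  | cons o w ih =>
    intro s n n' h hs
    rw [run_cons]
    cases o with
    | rot k => exact ih _ n n' h (by simp [step, hs])
    | vtx i a b =>
      obtain ⟨h1, h2, h3, h4, h5⟩ := h
      refine ih _ _ n' h5 ?_
      simp only [step, List.length_append, List.length_take, List.length_map, List.length_range',
        List.length_drop]
      omega

theorem legal_append {w w' : List Op} {n k n' : ℕ} (h : legal w n k) (h' : legal w' k n') :
    legal (w ++ w') n n' := by
  induction w generalizing n with
  | nil => cases h; exact h'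
  | cons o w ih =>
    cases o with
    | rot j => exact ih h
    | vtx i a b => exact ⟨h.1, h.2.1, h.2.2.1, h.2.2.2.1, ih h.2.2.2.2⟩

theorem legal_ctx {w : List Op} {n n' : ℕ} (c : ℕ) (h : legal w n n') :
    legal w (n + c) (n' + c) := by
  induction w generalizing n with
  | nil => cases h; exact rfl
  | cons o w ih =>
    cases o with
    | rot j => exact ih h
    | vtx i a b =>
      obtain ⟨h1, h2, h3, h4, h5⟩ := h
      refine ⟨h1, h2, by omega, by omega, ?_⟩
      have := ih h5
      rwa [show n + c - a + b = n - a + b + c by omega]

/-! ## sums -/

theorem noRot_nil : NoRot [] := by intro k; simp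

theorem noRot_cons {o : Op} {w : List Op} : NoRot (o :: w) ↔ (∀ k, o ≠ .rot k) ∧ NoRot w := by
  constructor
  · intro h
    refine ⟨fun k e => h k (by simp [e]), fun k hk => h k (List.mem_cons_of_mem _ hk)⟩
  · rintro ⟨h1, h2⟩ k hk
    rcases List.mem_cons.1 hk with e | e
    · exact h1 k e.symm
    · exact h2 k e

theorem noRot_append {w w' : List Op} (h : NoRot w) (h' : NoRot w') : NoRot (w ++ w') := by
  intro k hk
  rcases List.mem_append.1 hk with e | e
  · exact h k e
  · exact h' k e

theorem shift_nil (k : ℕ) : shift k [] = [] := rfl

theorem shift_vtx (k i a b : ℕ) (w : List Op) :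
    shift k (.vtx i a b :: w) = .vtx (i + k) a b :: shift k w := rfl

theorem shift_append (k : ℕ) (w w' : List Op) : shift k (w ++ w') = shift k w ++ shift k w' := by
  simp [shift]

theorem noRot_shift {w : List Op} (k : ℕ) (h : NoRot w) : NoRot (shift k w) := by
  induction w with
  | nil => exact noRot_nil
  | cons o w ih =>
    rw [noRot_cons] at h
    cases o with
    | rot j => exact absurd rfl (h.1 j)
    | vtx i a b =>
      rw [shift_vtx, noRot_cons]
      exact ⟨fun k => by simp, ih h.2⟩

theorem zadd (x : ZMod 2) : x + x = 0 := by
  have : (2 : ZMod 2) = 0 := by decide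
  rw [← two_mul, this, zero_mul]

theorem app_append (w w' : List Op) (F : List (Fin 3) → ZMod 2) :
    ∀ u, app (w ++ w') F u = app w (app w' F) u := by
  induction w with
  | nil => intro u; rfl
  | cons o w ih =>
    intro u
    cases o with
    | rot k => exact ih _
    | vtx i a b =>
      show (∑ v : Fin 3, _) = (∑ v : Fin 3, _)
      refine Finset.sum_congr rfl fun v _ => ?_
      split_ifs
      · rfl
      · exact ih _

theorem evenF_app (w : List Op) (hw : NoRot w) (F : List (Fin 3) → ZMod 2) (hF : EvenF F) :
    EvenF (app w F) := by
  induction w with
  | nil => exact hF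
  | cons o w ih =>
    rw [noRot_cons] at hw
    have ih := ih hw.2
    cases o with
    | rot j => exact absurd rfl (hw.1 j)
    | vtx i a b =>
      intro l r
      show (∑ x : Fin 3, ∑ v : Fin 3, if v ∈ ((l ++ x :: r).drop i).take a then 0 else
        app w F ((l ++ x :: r).take i ++ List.replicate b v ++ (l ++ x :: r).drop (i + a))) = 0
      rw [Finset.sum_comm]
      refine Finset.sum_eq_zero fun v _ => ?_
      rcases lt_or_ge l.length i with h1 | h1
      · -- the place is before the absorbed ones
        obtain ⟨j, rfl⟩ : ∃ j, i = l.length + (j + 1) := ⟨i - l.length - 1, by omega⟩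
        have e1 : ∀ x : Fin 3, (l ++ x :: r).drop (l.length + (j + 1)) = r.drop j := by
          intro x
          rw [List.drop_append]; simp
        have e2 : ∀ x : Fin 3, (l ++ x :: r).take (l.length + (j + 1)) = l ++ x :: r.take j := by
          intro x
          rw [List.take_append]; simp
        have e3 : ∀ x : Fin 3, (l ++ x :: r).drop (l.length + (j + 1) + a) = r.drop (j + a) := by
          intro x
          rw [show l.length + (j + 1) + a = l.length + (j + a + 1) by omega, List.drop_append]
          simp
        simp only [e1, e2, e3]
        by_cases hv : v ∈ (r.drop j).take a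
        · simp [hv]
        · simp only [hv, if_false]
          have := ih l (r.take j ++ List.replicate b v ++ r.drop (j + a))
          simpa [List.append_assoc] using this
      · rcases le_or_gt (i + a) l.length with h2 | h2
        · -- after the absorbed ones
          have e1 : ∀ x : Fin 3, ((l ++ x :: r).drop i).take a = (l.drop i).take a := by
            intro x
            rw [List.drop_append_of_le_length h1, List.take_append_of_le_length]
            rw [List.length_drop]; omega
          have e2 : ∀ x : Fin 3, (l ++ x :: r).take i = l.take i := by
            intro x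
            rw [List.take_append_of_le_length h1]
          have e3 : ∀ x : Fin 3, (l ++ x :: r).drop (i + a) = l.drop (i + a) ++ x :: r := by
            intro x
            rw [List.drop_append_of_le_length h2]
          simp only [e1, e2, e3]
          by_cases hv : v ∈ (l.drop i).take a
          · simp [hv]
          · simp only [hv, if_false]
            have := ih (l.take i ++ List.replicate b v ++ l.drop (i + a)) r
            simpa [List.append_assoc] using this
        · -- absorbed
          obtain ⟨c, hc⟩ : ∃ c, a = (l.length - i) + (c + 1) := ⟨a - (l.length - i) - 1, by omega⟩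
          have e1 : ∀ x : Fin 3, ((l ++ x :: r).drop i).take a = l.drop i ++ x :: r.take c := by
            intro x
            rw [List.drop_append_of_le_length h1, hc, ← List.length_drop, List.take_append]
            simp
          have e2 : ∀ x : Fin 3, (l ++ x :: r).take i = l.take i := by
            intro x
            rw [List.take_append_of_le_length h1]
          have e3 : ∀ x : Fin 3, (l ++ x :: r).drop (i + a) = r.drop c := by
            intro x
            rw [show i + a = l.length + (c + 1) by omega, List.drop_append]
            simp
          simp only [e1, e2, e3]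
          by_cases hv : v ∈ l.drop i ++ r.take c
          · refine Finset.sum_eq_zero fun x _ => ?_
            have : v ∈ l.drop i ++ x :: r.take c := by
              rcases List.mem_append.1 hv with h | h
              · exact List.mem_append.2 (Or.inl h)
              · exact List.mem_append.2 (Or.inr (List.mem_cons_of_mem _ h))
            simp [this]
          · have h3 : ∀ x : Fin 3, v ∈ l.drop i ++ x :: r.take c ↔ v = x := by
              intro x
              simp only [List.mem_append, List.mem_cons, not_or] at hv ⊢
              tauto
            simp only [h3]
            have h4 : ∀ g : ZMod 2, (∑ x : Fin 3, if v = x then 0 else g) = 0 := by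
              intro g
              have : g + g = 0 := zadd g
              fin_cases v <;> simp [Fin.sum_univ_three, this]
            exact h4 _

theorem app_one {G : List (Fin 3) → ZMod 2} (hG : EvenF G) (i : ℕ) (u : List (Fin 3))
    (hi : i < u.length) : (∑ v : Fin 3, if v ∈ (u.drop i).take 1 then 0 else
      G (u.take i ++ List.replicate 1 v ++ u.drop (i + 1))) = G u := by
  have h1 : (u.drop i).take 1 = [u[i]] := by
    rw [List.drop_eq_getElem_cons hi, List.take_succ_cons, List.take_zero]
  have h2 : u = u.take i ++ u[i] :: u.drop (i + 1) := by
    rw [← List.drop_eq_getElem_cons hi, List.take_append_drop]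
  have h3 := hG (u.take i) (u.drop (i + 1))
  rw [h1]
  generalize u[i] = x at *
  have h4 : ∀ v : Fin 3, (if v ∈ [x] then 0 else
      G (u.take i ++ List.replicate 1 v ++ u.drop (i + 1))) =
      (if v = x then 0 else G (u.take i ++ v :: u.drop (i + 1))) := by
    intro v
    simp
  simp only [h4]
  have h5 : (∑ v : Fin 3, if v = x then 0 else G (u.take i ++ v :: u.drop (i + 1))) +
      G (u.take i ++ x :: u.drop (i + 1)) = 0 := by
    have h8 : ∀ g : Fin 3 → ZMod 2, (∑ v : Fin 3, if v = x then 0 else g v) + g x =
        ∑ v : Fin 3, g v := by
      intro g
      fin_cases x <;> simp [Fin.sum_univ_three] <;> ring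
    exact (h8 fun v => G (u.take i ++ v :: u.drop (i + 1))).trans h3
  have h6 : (∑ v : Fin 3, if v = x then 0 else G (u.take i ++ v :: u.drop (i + 1))) =
      G (u.take i ++ x :: u.drop (i + 1)) := by
    have h7 := zadd (G (u.take i ++ x :: u.drop (i + 1)))
    exact add_right_cancel (h5.trans h7.symm)
  rw [h6, ← h2]

theorem app_ones {F : List (Fin 3) → ZMod 2} (hF : EvenF F) (is : List ℕ) (u : List (Fin 3))
    (h : ∀ i ∈ is, i < u.length) : app (is.map fun i => .vtx i 1 1) F u = F u := by
  induction is with
  | nil => rfl
  | cons i is ih =>
    have e : EvenF (app (is.map fun i => Op.vtx i 1 1) F) := by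
      refine evenF_app _ ?_ F hF
      intro k hk
      simp at hk
    have := app_one e i u (h i (by simp))
    show (∑ v : Fin 3, _) = _
    rw [this]
    exact ih fun j hj => h j (List.mem_cons_of_mem _ hj)

theorem app_congr {F G : List (Fin 3) → ZMod 2} (c k : ℕ) (hk : k ≤ c) {w : List Op} {n n' : ℕ}
    (hw : NoRot w)
    (h : legal w n n') (hFG : ∀ u, u.length = c + n' → F u = G u) (u : List (Fin 3))
    (hu : u.length = c + n) : app (shift k w) F u = app (shift k w) G u := by
  induction w generalizing n u with
  | nil => cases h; exact hFG u hu
  | cons o w ih =>
    rw [noRot_cons] at hw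
    cases o with
    | rot j => exact absurd rfl (hw.1 j)
    | vtx i a b =>
      obtain ⟨h1, h2, h3, h4, h5⟩ := h
      show (∑ v : Fin 3, _) = (∑ v : Fin 3, _)
      refine Finset.sum_congr rfl fun v _ => ?_
      split_ifs
      · rfl
      · refine ih hw.2 h5 _ ?_
        simp only [List.length_append, List.length_take, List.length_replicate, List.length_drop]
        omega

/-- replacing all open edges -/
theorem run_ones {I : Type} (new : ℕ → I) (fr : List I) (m : ℕ) (vs : List (List I × List I)) :
    ∀ j, j ≤ fr.length →
      (run new ⟨fr, m, vs⟩ ((List.range j).map fun i => .vtx i 1 1)).fr =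
        (List.range' m j).map new ++ fr.drop j := by
  intro j
  induction j with
  | zero => intro _; simp [run]
  | succ j ih =>
    intro hj
    have ih := ih (by omega)
    have hm : (run new ⟨fr, m, vs⟩ ((List.range j).map fun i => .vtx i 1 1)).m = m + j := by
      rw [run_m]
      have : ∀ l : List ℕ, ec (l.map fun i => Op.vtx i 1 1) = l.length := by
        intro l
        induction l with
        | nil => rfl
        | cons a l ih => simp only [List.map_cons, ec, ih, List.length_cons]; omega
      rw [this, List.length_range]
    rw [List.range_succ, List.map_append, run_append]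
    generalize run new ⟨fr, m, vs⟩ ((List.range j).map fun i => Op.vtx i 1 1) = s at ih hm ⊢
    show s.fr.take j ++ (List.range' s.m 1).map new ++ s.fr.drop (j + 1) = _
    rw [ih, hm]
    have hl : ((List.range' m j).map new).length = j := by simp
    have e1 : ((List.range' m j).map new ++ fr.drop j).take j = (List.range' m j).map new := by
      rw [List.take_append_of_le_length (by omega)]
      rw [List.take_of_length_le (by omega)]
    have e2 : ((List.range' m j).map new ++ fr.drop j).drop (j + 1) = fr.drop (j + 1) := by
      rw [List.drop_append]
      rw [List.drop_eq_nil_of_le (by omega)]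
      simp
    have e3 : List.range' m (j + 1) = List.range' m j ++ [m + j] := by
      rw [List.range'_concat]; simp
    rw [e1, e2, e3]
    simp

theorem nor : NorStmt := by
  intro w n n' hw hl hn hn'
  refine ⟨ec w + n', fun J hJ hJe => ?_⟩
  obtain ⟨p, hp⟩ : ∃ p, J = p + (ec w + n') := ⟨J - (ec w + n'), by omega⟩
  set pre : List Op := List.replicate p (.vtx 0 1 1) with hpre
  set suf : List Op := (List.range n').map fun i => .vtx i 1 1 with hsuf
  have ecpre : ec pre = p := by
    rw [hpre]
    clear hp hpre
    induction p with
    | zero => rfl
    | succ p ih => rw [List.replicate_succ, ec, ih]; omega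
  have legpre : legal pre n n := by
    rw [hpre]
    clear ecpre hp hpre
    induction p with
    | zero => exact rfl
    | succ p ih =>
      rw [List.replicate_succ]
      refine ⟨le_refl _, le_refl _, by omega, by omega, ?_⟩
      rwa [show n - 1 + 1 = n by omega]
  have legis : ∀ is : List ℕ, (∀ i ∈ is, i < n') →
      legal (is.map fun i => Op.vtx i 1 1) n' n' ∧
      ec (is.map fun i => Op.vtx i 1 1) = is.length := by
    intro is
    induction is with
    | nil => intro _; exact ⟨rfl, rfl⟩
    | cons i is ih =>
      intro h
      have h1 := h i (by simp)
      have h2 := ih fun j hj => h j (List.mem_cons_of_mem _ hj)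
      refine ⟨⟨le_refl _, le_refl _, by omega, by omega, ?_⟩, ?_⟩
      · have := h2.1
        rwa [show n' - 1 + 1 = n' by omega]
      · have := h2.2
        simp only [List.map_cons, ec, this, List.length_cons]
        omega
  have legsuf := legis (List.range n') (by simp)
  rw [List.length_range] at legsuf
  have nrpre : NoRot pre := by
    intro k hk
    have := List.eq_of_mem_replicate hk
    simp at this
  have nrsuf : NoRot suf := by
    intro k hk
    simp [hsuf] at hk
  refine ⟨pre ++ (w ++ suf), ⟨noRot_append nrpre (noRot_append hw nrsuf),
    legal_append legpre (legal_append hl legsuf.1), by omega, hJe, ?_⟩, ?_⟩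
  · intro I new fr vs m hfr
    constructor
    · rw [run_append, run_append]
      have hm : (run new (run new ⟨fr, m, vs⟩ pre) w).m = m + J - n' := by
        rw [run_m, run_m, ecpre]
        show m + p + ec w = _
        omega
      have hlen : (run new (run new ⟨fr, m, vs⟩ pre) w).fr.length = n' :=
        run_len new w _ n n' hl (run_len new pre _ n n legpre hfr)
      generalize run new (run new ⟨fr, m, vs⟩ pre) w = s at hm hlen ⊢
      obtain ⟨fr', m', vs'⟩ := s
      have := run_ones new fr' m' vs' n' hlen.ge
      rw [hsuf, this, List.drop_eq_nil_of_le hlen.le]
      simp only at hm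
      rw [hm, List.append_nil]
    · rw [run_m, ec_append, ec_append, ecpre, legsuf.2]
      show m + (p + (ec w + n')) = _
      omega
  · intro F hF l u r hu
    rw [shift_append, shift_append, app_append]
    have hG : EvenF (app (shift l.length w ++ shift l.length suf) F) :=
      evenF_app _ (noRot_append (noRot_shift _ hw) (noRot_shift _ nrsuf)) F hF
    have h1 : shift l.length pre = (List.replicate p l.length).map fun i => Op.vtx i 1 1 := by
      rw [hpre]
      simp [shift]
    rw [h1, app_ones hG (List.replicate p l.length) (l ++ (u ++ r))]
    · rw [app_append]
      refine app_congr (l.length + r.length) l.length (by omega) hw hl ?_ _ (by simp; omega)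
      intro u' hu'
      have h2 : shift l.length suf = ((List.range n').map (· + l.length)).map
          fun i => Op.vtx i 1 1 := by
        rw [hsuf]
        simp [shift]
      rw [h2]
      refine app_ones hF _ u' ?_
      intro i hi
      simp only [List.mem_map, List.mem_range] at hi
      obtain ⟨j, hj, rfl⟩ := hi
      omega
    · intro i hi
      have := List.eq_of_mem_replicate hi
      subst this
      simp
      omega

end Pool.Agent.HAM.H25
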